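import Mathlib

/-!
# BR: the ring of integers of the completion of a number field at a finite place

* `isAdicComplete` : it is complete for the powers of its maximal ideal.
* `finite_residueField`, `card_residueField` : the residue field.
-/

set_option autoImplicit false

namespace Pool.Agent.Helper65.BR

open NumberField IsDedekindDomain HeightOneSpectrum IsLocalRing

section

variable {K : Type} [Field K] [NumberField K] (v : HeightOneSpectrum (𝓞 K))

theorem norm_le_one_iff (x : v.adicCompletion K) :
    ‖x‖ ≤ 1 ↔ x ∈ v.adicCompletionIntegers K := by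
  rw [mem_adicCompletionIntegers, FinitePlace.norm_def]
  norm_cast
  exact WithZeroMulInt.toNNReal_le_one_iff (one_lt_absNorm_nnreal v)

theorem norm_lt_one_iff (x : v.adicCompletion K) : ‖x‖ < 1 ↔ Valued.v x < 1 := by
  rw [FinitePlace.norm_def]
  norm_cast
  exact WithZeroMulInt.toNNReal_lt_one_iff (one_lt_absNorm_nnreal v)

theorem mem_maximalIdeal_iff (x : v.adicCompletionIntegers K) :
    x ∈ maximalIdeal (v.adicCompletionIntegers K) ↔ Valued.v (x : v.adicCompletion K) < 1 := by
  rw [IsLocalRing.mem_maximalIdeal, mem_nonunits_iff,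
    adicCompletionIntegers.isUnit_iff_valued_eq_one]
  have h : Valued.v (x : v.adicCompletion K) ≤ 1 := x.2
  exact ⟨fun h1 => lt_of_le_of_ne h h1, fun h1 => h1.ne⟩

/-- a uniformizer -/
theorem exists_unif : ∃ π : v.adicCompletionIntegers K, 0 < ‖(π : v.adicCompletion K)‖ ∧
    ‖(π : v.adicCompletion K)‖ < 1 ∧ ∀ (n : ℕ) (x : v.adicCompletionIntegers K),
      x ∈ maximalIdeal (v.adicCompletionIntegers K) ^ n ↔
        ‖(x : v.adicCompletion K)‖ ≤ ‖(π : v.adicCompletion K)‖ ^ n := by
  obtain ⟨π, hπ⟩ := IsDiscreteValuationRing.exists_irreducible (v.adicCompletionIntegers K)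
  have hmax : maximalIdeal (v.adicCompletionIntegers K) = Ideal.span {π} := hπ.maximalIdeal_eq
  have hπ0 : (π : v.adicCompletion K) ≠ 0 := by
    intro h
    exact hπ.ne_zero (Subtype.ext h)
  refine ⟨π, norm_pos_iff.2 hπ0, ?_, fun n x => ?_⟩
  · rw [norm_lt_one_iff, ← mem_maximalIdeal_iff, hmax]
    exact Ideal.mem_span_singleton_self π
  · rw [hmax, Ideal.span_singleton_pow, Ideal.mem_span_singleton]
    constructor
    · rintro ⟨y, rfl⟩
      have hy : ‖(y : v.adicCompletion K)‖ ≤ 1 := (norm_le_one_iff v _).2 y.2
      have h1 : ((π ^ n * y : v.adicCompletionIntegers K) : v.adicCompletion K) =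
          (π : v.adicCompletion K) ^ n * y := by push_cast; rfl
      rw [h1, norm_mul, norm_pow]
      exact mul_le_of_le_one_right (by positivity) hy
    · intro h
      have h1 : ‖(x : v.adicCompletion K) / (π : v.adicCompletion K) ^ n‖ ≤ 1 := by
        rw [norm_div, norm_pow, div_le_one (pow_pos (norm_pos_iff.2 hπ0) n)]
        exact h
      refine ⟨⟨(x : v.adicCompletion K) / (π : v.adicCompletion K) ^ n,
        (norm_le_one_iff v _).1 h1⟩, ?_⟩
      apply Subtype.ext
      push_cast
      rw [mul_div_cancel₀]
      exact pow_ne_zero n hπ0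

theorem isAdicComplete : IsAdicComplete (maximalIdeal (v.adicCompletionIntegers K))
    (v.adicCompletionIntegers K) := by
  obtain ⟨π, h0, h1, hm⟩ := exists_unif v
  have hsm : ∀ (n : ℕ) (x y : v.adicCompletionIntegers K),
      x ≡ y [SMOD (maximalIdeal (v.adicCompletionIntegers K) ^ n • ⊤ :
        Submodule (v.adicCompletionIntegers K) (v.adicCompletionIntegers K))] ↔
      ‖(x : v.adicCompletion K) - y‖ ≤ ‖(π : v.adicCompletion K)‖ ^ n := by
    intro n x y
    rw [SModEq.sub_mem, smul_eq_mul, Ideal.mul_top, hm n (x - y)]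
    rfl
  refine { haus' := fun x hx => ?_, prec' := fun f hf => ?_ }
  · have h2 : ∀ n : ℕ, ‖(x : v.adicCompletion K)‖ ≤ ‖(π : v.adicCompletion K)‖ ^ n := by
      intro n
      have h3 := (hsm n x 0).1 (hx n)
      have h4 : ((0 : v.adicCompletionIntegers K) : v.adicCompletion K) = 0 := rfl
      rwa [h4, sub_zero] at h3
    have h3 : ‖(x : v.adicCompletion K)‖ ≤ 0 :=
      ge_of_tendsto' (tendsto_pow_atTop_nhds_zero_of_lt_one h0.le h1) h2
    have h4 : (x : v.adicCompletion K) = 0 := norm_le_zero_iff.1 h3
    exact Subtype.ext h4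
  · have hc : ∀ {m n : ℕ}, m ≤ n →
        ‖(f m : v.adicCompletion K) - f n‖ ≤ ‖(π : v.adicCompletion K)‖ ^ m :=
      fun {m n} hmn => (hsm m _ _).1 (hf hmn)
    have hcs : CauchySeq (fun n => (f n : v.adicCompletion K)) := by
      apply cauchySeq_of_le_geometric ‖(π : v.adicCompletion K)‖ 1 h1
      intro n
      rw [dist_eq_norm, one_mul]
      exact hc n.le_succ
    obtain ⟨L, hL⟩ := cauchySeq_tendsto_of_complete hcs
    have hle : ∀ n, ‖(f n : v.adicCompletion K) - L‖ ≤ ‖(π : v.adicCompletion K)‖ ^ n := by
      intro n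
      have h2 : Filter.Tendsto (fun m => ‖(f n : v.adicCompletion K) - f m‖) Filter.atTop
          (nhds ‖(f n : v.adicCompletion K) - L‖) := (hL.const_sub _).norm
      refine le_of_tendsto h2 ?_
      filter_upwards [Filter.eventually_ge_atTop n] with m hm'
      exact hc hm'
    have hLO : L ∈ v.adicCompletionIntegers K := by
      rw [← norm_le_one_iff]
      have h2 : Filter.Tendsto (fun m => ‖(f m : v.adicCompletion K)‖) Filter.atTop
          (nhds ‖L‖) := hL.norm
      exact le_of_tendsto' h2 (fun m => (norm_le_one_iff v _).2 (f m).2)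
    exact ⟨⟨L, hLO⟩, fun n => (hsm n _ _).2 (hle n)⟩

/-- the residue map from the integers of the number field -/
noncomputable def resMap : 𝓞 K →+* ResidueField (v.adicCompletionIntegers K) :=
  (residue (v.adicCompletionIntegers K)).comp (algebraMap (𝓞 K) (v.adicCompletionIntegers K))

theorem resMap_surjective : Function.Surjective (resMap v) := by
  intro y
  obtain ⟨x, rfl⟩ := residue_surjective y
  -- approximate `x` by an element of `K`
  have hd := denseRange_algebraMap (K := K) v
  have hball : Metric.ball (x : v.adicCompletion K) 1 ∈ nhds (x : v.adicCompletion K) :=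
    Metric.ball_mem_nhds _ one_pos
  obtain ⟨z, hz, k, rfl⟩ := mem_closure_iff_nhds.1 (hd (x : v.adicCompletion K)) _ hball
  rw [Metric.mem_ball, dist_eq_norm, norm_lt_one_iff] at hz
  have hk : v.valuation K k ≤ 1 := by
    have h1 : Valued.v (algebraMap K (v.adicCompletion K) k) = v.valuation K k := by
      rw [algebraMap_adicCompletion]
      exact valuedAdicCompletion_eq_valuation' v k
    rw [← h1]
    have h2 : algebraMap K (v.adicCompletion K) k =
        (algebraMap K (v.adicCompletion K) k - x) + x := by ring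
    rw [h2]
    exact (Valuation.map_add _ _ _).trans (max_le hz.le x.2)
  obtain ⟨a, ha⟩ := v.exists_valuation_sub_lt_of_integer hk 1
  refine ⟨a, ?_⟩
  unfold resMap
  rw [RingHom.comp_apply, ← sub_eq_zero, ← map_sub, residue_eq_zero_iff, mem_maximalIdeal_iff]
  have h3 : ((algebraMap (𝓞 K) (v.adicCompletionIntegers K) a - x : v.adicCompletionIntegers K) :
      v.adicCompletion K) = (algebraMap K (v.adicCompletion K) (algebraMap (𝓞 K) K a) -
        algebraMap K (v.adicCompletion K) k) + (algebraMap K (v.adicCompletion K) k - x) := by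
    have h4 : ((algebraMap (𝓞 K) (v.adicCompletionIntegers K) a : v.adicCompletionIntegers K) :
        v.adicCompletion K) = algebraMap K (v.adicCompletion K) (algebraMap (𝓞 K) K a) := rfl
    have h5 : ((algebraMap (𝓞 K) (v.adicCompletionIntegers K) a - x : v.adicCompletionIntegers K) :
      v.adicCompletion K) = ((algebraMap (𝓞 K) (v.adicCompletionIntegers K) a :
        v.adicCompletionIntegers K) : v.adicCompletion K) - x := rfl
    rw [h5, h4]
    ring
  rw [h3]
  refine (Valuation.map_add _ _ _).trans_lt (max_lt ?_ hz)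
  rw [← map_sub, algebraMap_adicCompletion]
  have h6 := valuedAdicCompletion_eq_valuation' v (algebraMap (𝓞 K) K a - k)
  refine lt_of_eq_of_lt h6 ?_
  simpa using ha

theorem ker_resMap : RingHom.ker (resMap v) = v.asIdeal := by
  ext a
  rw [RingHom.mem_ker]
  unfold resMap
  rw [RingHom.comp_apply, residue_eq_zero_iff, mem_maximalIdeal_iff]
  have h4 : ((algebraMap (𝓞 K) (v.adicCompletionIntegers K) a : v.adicCompletionIntegers K) :
      v.adicCompletion K) = algebraMap K (v.adicCompletion K) (algebraMap (𝓞 K) K a) := rfl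
  rw [h4, algebraMap_adicCompletion]
  have h6 := valuedAdicCompletion_eq_valuation' v (algebraMap (𝓞 K) K a)
  rw [Function.comp_apply]
  have h7 : (Valued.v (((algebraMap K K) ((algebraMap (𝓞 K) K) a) : K) : v.adicCompletion K)) =
      v.valuation K (algebraMap (𝓞 K) K a) := h6
  rw [h7]
  exact valuation_lt_one_iff_mem v a

/-- the residue field is the residue field of the number field -/
noncomputable def resEquiv : (𝓞 K ⧸ v.asIdeal) ≃+* ResidueField (v.adicCompletionIntegers K) :=
  (Ideal.quotEquivOfEq (ker_resMap v).symm).trans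
    (RingHom.quotientKerEquivOfSurjective (resMap_surjective v))

theorem card_residueField :
    Nat.card (ResidueField (v.adicCompletionIntegers K)) = Ideal.absNorm v.asIdeal := by
  rw [← Nat.card_congr (resEquiv v).toEquiv]
  rfl

theorem finite_residueField : Finite (ResidueField (v.adicCompletionIntegers K)) := by
  have h : Finite (𝓞 K ⧸ v.asIdeal) := v.asIdeal.finiteQuotientOfFreeOfNeBot v.ne_bot
  exact Finite.of_equiv _ (resEquiv v).toEquiv

theorem finite_residueField' (w : HeightOneSpectrum (𝓞 K)) :
    Finite (ResidueField (w.adicCompletionIntegers K)) := finite_residueField w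

end

end Pool.Agent.Helper65.BR
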