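import Pool.Agent.Helper56.CL.TriF
import Pool.Agent.Helper65.CL.FinalDm

/-!
# BR, sieve side: points of affine space

* `pts` : the claim (E) for one family, for all large `J`.
-/

set_option autoImplicit false

namespace Pool.Agent.Helper65.BR

open NumberField Pool.Agent.Helper4.CB Pool.Agent.Helper69.CB
open Pool.Agent.Helper65.CL (Bad TriClaim SieveAll)
open Pool.Agent.Helper56.CL (start eval_le_one)

/-- bad places become rarer -/
theorem bad_mono {K : Type} [Field K] [NumberField K] {Λ : Finset ℕ} {J J' : ℕ} (h : J ≤ J')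
    {p : Pl K} (hp : Bad Λ J' p) : Bad Λ J p := by
  obtain ⟨l, hl, h1⟩ := hp
  exact ⟨l, hl, Nat.ModEq.of_dvd (pow_dvd_pow l h) h1⟩

/-- **points**: finitely many polynomials `F` of degree at most `dm` in their first variable,
finitely many coprime families `T k`, finitely many polynomials `G` -/
theorem pts_of (K : Type) [Field K] [NumberField K] {n dm : ℕ} {Λ : Finset ℕ}
    (hΛ : ∀ l ∈ Λ, 2 ≤ l)
    (hE : ∀ A Dg J0 : ℕ, ∃ J, J0 ≤ J ∧ TriClaim K Λ J dm A Dg n)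
    (F : Finset (MvPolynomial (Fin n) K)) (hF : ∀ P ∈ F, Irreducible P ∧ TriDeg dm P)
    {κ : Type} [Fintype κ] (T : κ → Finset (MvPolynomial (Fin n) K))
    (hT : ∀ k, (∃ f ∈ T k, f ≠ 0) ∧ ∀ q, Irreducible q → ∃ f ∈ T k, ¬ q ∣ f)
    (G : Finset (MvPolynomial (Fin n) K)) :
    ∃ J0 : ℕ, ∀ J, J0 ≤ J → ∀ H : MvPolynomial (Fin n) K, H ≠ 0 →
      ∃ t : Fin n → K, MvPolynomial.eval t H ≠ 0 ∧ ∀ p : Pl K, Bad Λ J p →
        (∀ j, vl p (t j) ≤ 1) ∧ (∀ P ∈ F, vl p (MvPolynomial.eval t P) = 1) ∧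
        (∀ k, ∃ f ∈ T k, vl p (MvPolynomial.eval t f) = 1) ∧
        ∀ g ∈ G, vl p (MvPolynomial.eval t g) ≤ 1 := by
  classical
  let PP : Finset (MvPolynomial (Fin n) K) := F ∪ Finset.univ.biUnion T ∪ G
  let S : Finset K := PP.biUnion fun q => q.support.image fun m => q.coeff m
  have hS : ∀ q ∈ PP, ∀ m, q.coeff m ≠ 0 → q.coeff m ∈ S := by
    intro q hq m hm
    refine Finset.mem_biUnion.2 ⟨q, hq, Finset.mem_image.2 ⟨m, ?_, rfl⟩⟩
    rwa [MvPolynomial.mem_support_iff]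
  obtain ⟨J0, hJ0⟩ := start K hΛ S 0
  obtain ⟨J, hJ, hpts⟩ := hE (Fintype.card {P // P ∈ F} + Fintype.card κ)
    (PP.sup MvPolynomial.totalDegree) J0
  refine ⟨J, fun J' hJ' H hH => ?_⟩
  have huc : ∀ p : Pl K, Bad Λ J p → ∀ q ∈ PP, ∀ m, q.coeff m ≠ 0 →
      p.valuation K (q.coeff m) = 1 := fun p hp q hq m hm =>
    (hJ0 J hJ p hp).2 _ (hS q hq m hm) hm
  have hint : ∀ p : Pl K, Bad Λ J p → ∀ q ∈ PP, ∀ m, p.valuation K (q.coeff m) ≤ 1 := by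
    intro p hp q hq m
    by_cases hm : q.coeff m = 0
    · rw [hm, map_zero]
      exact zero_le
    · exact (huc p hp q hq m hm).le
  have hdeg : ∀ q ∈ PP, ∀ j, q.degreeOf j ≤ PP.sup MvPolynomial.totalDegree := fun q hq j =>
    (MvPolynomial.degreeOf_le_totalDegree q j).trans
      (Finset.le_sup (f := MvPolynomial.totalDegree) hq)
  have hFP : ∀ q ∈ F, q ∈ PP := fun q hq =>
    Finset.mem_union_left _ (Finset.mem_union_left _ hq)
  have hTP : ∀ k, ∀ q ∈ T k, q ∈ PP := fun k q hq =>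
    Finset.mem_union_left _ (Finset.mem_union_right _
      (Finset.mem_biUnion.2 ⟨k, Finset.mem_univ _, hq⟩))
  have hGP : ∀ q ∈ G, q ∈ PP := fun q hq => Finset.mem_union_right _ hq
  obtain ⟨t, ht1, ht2⟩ := hpts {P // P ∈ F} κ (fun i => i.1) T H le_rfl
    (fun i => hF _ i.2) hT
    (fun i j => hdeg _ (hFP _ i.2) j)
    (fun k f hf j => hdeg f (hTP k f hf) j)
    (fun p hp i m hm => huc p hp _ (hFP _ i.2) m hm)
    (fun p hp k f hf m hm => huc p hp f (hTP k f hf) m hm) hH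
  refine ⟨t, ht1, fun p hp => ?_⟩
  obtain ⟨h1, h2, h3⟩ := ht2 p (bad_mono hJ' hp)
  exact ⟨h1, fun P hP => h2 ⟨P, hP⟩, h3, fun g hg =>
    eval_le_one p (hint p (bad_mono hJ' hp) g (hGP g hg)) h1⟩

/-- `pts_of` for `dm = 3` -/
theorem pts (K : Type) [Field K] [NumberField K] {n : ℕ} {Λ : Finset ℕ}
    (hΛ : ∀ l ∈ Λ, l.Prime)
    (F : Finset (MvPolynomial (Fin n) K)) (hF : ∀ P ∈ F, Irreducible P ∧ TriDeg 3 P)
    {κ : Type} [Fintype κ] (T : κ → Finset (MvPolynomial (Fin n) K))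
    (hT : ∀ k, (∃ f ∈ T k, f ≠ 0) ∧ ∀ q, Irreducible q → ∃ f ∈ T k, ¬ q ∣ f)
    (G : Finset (MvPolynomial (Fin n) K)) :
    ∃ J0 : ℕ, ∀ J, J0 ≤ J → ∀ H : MvPolynomial (Fin n) K, H ≠ 0 →
      ∃ t : Fin n → K, MvPolynomial.eval t H ≠ 0 ∧ ∀ p : Pl K, Bad Λ J p →
        (∀ j, vl p (t j) ≤ 1) ∧ (∀ P ∈ F, vl p (MvPolynomial.eval t P) = 1) ∧
        (∀ k, ∃ f ∈ T k, vl p (MvPolynomial.eval t f) = 1) ∧
        ∀ g ∈ G, vl p (MvPolynomial.eval t g) ≤ 1 :=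
  pts_of K (fun l hl => (hΛ l hl).two_le)
    (fun A Dg J0 => Pool.Agent.Helper65.CL.triClaim_dm 3
      Pool.Agent.Helper65.CL.sieveAll_three Λ hΛ K n A Dg J0) F hF T hT G

end Pool.Agent.Helper65.BR
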