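import Pool.Agent.Helper65.BR.Away
import Pool.Agent.Helper65.CL.Desc

/-!
# BR, sieve side: passing to a finite extension

* `exists_ext` : a finite extension of the number field `M0` over which all factors of `P` have
  small degree in their first variable, when this is so over an algebraic closure.
* `points_away` : points of affine space minus a hypersurface with values in a finite extension.
-/

set_option autoImplicit false

namespace Pool.Agent.Helper65.BR

open NumberField Pool.Agent.Helper4.CB Pool.Agent.Helper69.CB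
open Pool.Agent.Helper65.CL (Bad TriClaim SieveAll)
open Pool.Agent.Helper83.BR (SP)

/-- a finite extension of `M0` over which the factors of `P` have small degree in their first
variable -/
theorem exists_ext (K : Type) [Field K] [NumberField K] {n dm : ℕ} (P : MvPolynomial (Fin n) K)
    (hP0 : P ≠ 0)
    (hP : ∀ Q : MvPolynomial (Fin n) (AlgebraicClosure K), Irreducible Q →
      Q ∣ MvPolynomial.map (algebraMap K (AlgebraicClosure K)) P → TriDeg dm Q)
    (M0 : Type) [Field M0] [NumberField M0] [Algebra K M0] :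
    ∃ (M : Type) (_ : Field M) (_ : NumberField M) (_ : Algebra K M) (_ : Algebra M0 M)
      (_ : IsScalarTower K M0 M), ∀ Q : MvPolynomial (Fin n) M, Irreducible Q →
        Q ∣ MvPolynomial.map (algebraMap K M) P → TriDeg dm Q := by
  classical
  obtain ⟨T, hT⟩ := Pool.Agent.Helper65.CL.exists_data (K := K) (σ := Fin n) (l := 1) le_rfl False
    (fun d : Fin n → ℕ => ∀ j : Fin n, (∀ i < j, d i = 0) → d j ≤ dm) P 1 hP0 one_ne_zero
    (fun Q hQ hQP => Or.inl (hP Q hQ (by rwa [mul_one] at hQP)))
  obtain ⟨MT, hMT, hMT'⟩ := exists_field (K := K) T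
  have hfin0 : FiniteDimensional K M0 := by
    have : IsScalarTower ℚ K M0 := inferInstance
    exact Module.Finite.right ℚ K M0
  let ε : M0 →ₐ[K] AlgebraicClosure K := IsAlgClosed.lift
  have hfr : FiniteDimensional K ε.fieldRange := by
    have h1 : Module.Finite K ε.range :=
      Module.Finite.equiv (AlgEquiv.ofInjectiveField ε).toLinearEquiv
    exact h1
  let M : IntermediateField K (AlgebraicClosure K) := ε.fieldRange ⊔ MT
  have hM : FiniteDimensional K M := IntermediateField.finiteDimensional_sup _ _
  have hMn : NumberField M := NumberField.of_module_finite K M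
  let ε' : M0 →ₐ[K] M := AlgHom.codRestrict ε M.toSubalgebra
    (fun x => (le_sup_left : ε.fieldRange ≤ M) ⟨x, rfl⟩)
  let iA : Algebra M0 M := ε'.toRingHom.toAlgebra
  have hst : IsScalarTower K M0 M := IsScalarTower.of_algebraMap_eq fun x => (ε'.commutes x).symm
  refine ⟨M, inferInstance, hMn, inferInstance, iA, hst, fun Q hQ hQP => ?_⟩
  have h1 := hT M (fun p hp => by
    obtain ⟨q, hq⟩ := hMT' p hp
    let j : MT →ₐ[K] M := IntermediateField.inclusion (le_sup_right : MT ≤ M)
    refine ⟨MvPolynomial.map j.toRingHom q, ?_⟩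
    rw [MvPolynomial.map_map, ← hq]
    rfl) Q hQ (by rwa [mul_one])
  exact h1.resolve_right (fun h => h.1)

/-- points over a finite extension -/
theorem points_away (K : Type) [Field K] [NumberField K] {n : ℕ} (P : MvPolynomial (Fin n) K)
    (hP0 : P ≠ 0)
    (hP : ∀ Q : MvPolynomial (Fin n) (AlgebraicClosure K), Irreducible Q →
      Q ∣ MvPolynomial.map (algebraMap K (AlgebraicClosure K)) P → TriDeg 3 Q)
    (R : Type) [CommRing R] [Algebra (MvPolynomial (Fin n) K) R] [Algebra K R]
    [IsScalarTower K (MvPolynomial (Fin n) K) R] [IsLocalization.Away P R]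
    (Λ : Finset ℕ) (hΛ : ∀ l ∈ Λ, l.Prime)
    (M0 : Type) [Field M0] [NumberField M0] [Algebra K M0] :
    ∃ (M : Type) (_ : Field M) (_ : NumberField M) (_ : Algebra K M) (_ : Algebra M0 M)
      (_ : IsScalarTower K M0 M), ∀ G : Finset R, ∃ J0 : ℕ, ∀ J, J0 ≤ J → ∀ f : R, f ≠ 0 →
        ∃ φ : R →ₐ[K] M, φ f ≠ 0 ∧ ∀ p : Pl M, Bad Λ J p → ∀ g ∈ G, vl p (φ g) ≤ 1 := by
  classical
  obtain ⟨M, iM, nM, aM, aM0, hst, hM⟩ := exists_ext K P hP0 hP M0
  refine ⟨M, iM, nM, aM, aM0, hst, fun G => ?_⟩
  set P' : MvPolynomial (Fin n) M := MvPolynomial.map (algebraMap K M) P with hP'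
  have hinj : Function.Injective (MvPolynomial.map (σ := Fin n) (algebraMap K M)) :=
    MvPolynomial.map_injective _ (algebraMap K M).injective
  have hP'0 : P' ≠ 0 := by
    rw [hP', Ne, map_eq_zero_iff _ hinj]
    exact hP0
  have hSP : SP M (Localization.Away P') := sp_away M P' hP'0 hM (Localization.Away P')
  have hle : Submonoid.powers P ≤
      (Submonoid.powers P').comap (MvPolynomial.map (σ := Fin n) (algebraMap K M)) := by
    rintro _ ⟨m, rfl⟩
    exact ⟨m, by simp [hP', map_pow]⟩
  let ψ : R →+* Localization.Away P' :=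
    IsLocalization.map (Localization.Away P') (MvPolynomial.map (σ := Fin n) (algebraMap K M)) hle
  have hψ : ∀ q : MvPolynomial (Fin n) K, ψ (algebraMap (MvPolynomial (Fin n) K) R q) =
      algebraMap (MvPolynomial (Fin n) M) (Localization.Away P')
        (MvPolynomial.map (algebraMap K M) q) := fun q =>
    IsLocalization.map_eq hle q
  have hψ0 : ∀ f : R, f ≠ 0 → ψ f ≠ 0 := by
    intro f hf h0
    obtain ⟨k, h, hk⟩ := IsLocalization.Away.surj P f
    have h1 : algebraMap (MvPolynomial (Fin n) M) (Localization.Away P')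
        (MvPolynomial.map (algebraMap K M) h) = 0 := by
      rw [← hψ, ← hk, map_mul, h0, zero_mul]
    have hle' : Submonoid.powers P' ≤ nonZeroDivisors (MvPolynomial (Fin n) M) :=
      powers_le_nonZeroDivisors_of_noZeroDivisors hP'0
    have h2 : MvPolynomial.map (algebraMap K M) h = 0 :=
      (IsLocalization.injective (Localization.Away P') hle') (by rw [h1, map_zero])
    have h3 : h = 0 := hinj (by rw [h2, map_zero])
    rw [h3, map_zero] at hk
    exact hf ((((IsLocalization.Away.algebraMap_isUnit P).pow k).mul_left_eq_zero).1 hk)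
  let ψ' : R →ₐ[K] Localization.Away P' :=
    { ψ with
      commutes' := by
        intro x
        show ψ (algebraMap K R x) = _
        rw [IsScalarTower.algebraMap_apply K (MvPolynomial (Fin n) K) R, hψ,
          MvPolynomial.algebraMap_eq, MvPolynomial.map_C,
          IsScalarTower.algebraMap_apply K M (Localization.Away P'),
          IsScalarTower.algebraMap_apply M (MvPolynomial (Fin n) M) (Localization.Away P'),
          MvPolynomial.algebraMap_eq] }
  obtain ⟨J0, hJ0⟩ := hSP Λ hΛ (G.image ψ')
  refine ⟨J0, fun J hJ f hf => ?_⟩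
  obtain ⟨φ, h1, h2⟩ := hJ0 J hJ (ψ' f) (hψ0 f hf)
  exact ⟨(φ.restrictScalars K).comp ψ', h1, fun p hp g hg =>
    h2 p hp (ψ' g) (Finset.mem_image_of_mem ψ' hg)⟩

end Pool.Agent.Helper65.BR
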