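import Pool.Agent.Helper65.BR.Pts
import Pool.Agent.Helper83.BR.Defs

/-!
# BR, sieve side: affine space minus a hypersurface

* `sp_away` : if all factors of `P` have degree at most three in their first variable then
  `SP K K[t][1 / P]`.
-/

set_option autoImplicit false

namespace Pool.Agent.Helper65.BR

open NumberField Pool.Agent.Helper4.CB Pool.Agent.Helper69.CB
open Pool.Agent.Helper65.CL (Bad TriClaim SieveAll)
open Pool.Agent.Helper83.BR (SP)

/-- **S1.** -/
theorem sp_away (K : Type) [Field K] [NumberField K] {n : ℕ} (P : MvPolynomial (Fin n) K)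
    (hP0 : P ≠ 0) (hP : ∀ Q : MvPolynomial (Fin n) K, Irreducible Q → Q ∣ P → TriDeg 3 Q)
    (R : Type) [CommRing R] [Algebra (MvPolynomial (Fin n) K) R] [Algebra K R]
    [IsScalarTower K (MvPolynomial (Fin n) K) R] [IsLocalization.Away P R] : SP K R := by
  classical
  intro Λ hΛ G
  have hsurj : ∀ g : R, ∃ (k : ℕ) (h : MvPolynomial (Fin n) K),
      g * algebraMap (MvPolynomial (Fin n) K) R P ^ k = algebraMap (MvPolynomial (Fin n) K) R h :=
    fun g => IsLocalization.Away.surj P g
  choose k h hkh using hsurj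
  let F : Finset (MvPolynomial (Fin n) K) := (UniqueFactorizationMonoid.factors P).toFinset
  have hF : ∀ Q ∈ F, Irreducible Q ∧ Q ∣ P := fun Q hQ =>
    ⟨UniqueFactorizationMonoid.irreducible_of_factor Q (Multiset.mem_toFinset.1 hQ),
      UniqueFactorizationMonoid.dvd_of_mem_factors (Multiset.mem_toFinset.1 hQ)⟩
  obtain ⟨U, hU⟩ : ∃ U : (MvPolynomial (Fin n) K)ˣ,
      (UniqueFactorizationMonoid.factors P).prod * U = P :=
    UniqueFactorizationMonoid.factors_prod hP0
  obtain ⟨J0, hJ0⟩ := pts K hΛ F (fun Q hQ => ⟨(hF Q hQ).1, hP Q (hF Q hQ).1 (hF Q hQ).2⟩)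
    (κ := Fin 0) (fun i => i.elim0) (fun i => i.elim0)
    (G.image h ∪ {(U : MvPolynomial (Fin n) K),
      ((U⁻¹ : (MvPolynomial (Fin n) K)ˣ) : MvPolynomial (Fin n) K)})
  refine ⟨J0, fun J hJ f hf => ?_⟩
  have hf' : h f * P ≠ 0 := by
    refine mul_ne_zero (fun h0 => ?_) hP0
    have h1 := hkh f
    rw [h0, map_zero] at h1
    have h2 : IsUnit (algebraMap (MvPolynomial (Fin n) K) R P ^ k f) :=
      (IsLocalization.Away.algebraMap_isUnit P).pow _
    exact hf ((h2.mul_left_eq_zero).1 h1)
  obtain ⟨t, ht1, ht2⟩ := hJ0 J hJ (h f * P) hf'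
  rw [map_mul] at ht1
  have hft : MvPolynomial.eval t (h f) ≠ 0 := left_ne_zero_of_mul ht1
  have hPt : MvPolynomial.eval t P ≠ 0 := right_ne_zero_of_mul ht1
  have hunit : ∀ y : Submonoid.powers P,
      IsUnit (MvPolynomial.aeval t (y : MvPolynomial (Fin n) K)) := by
    rintro ⟨y, m, rfl⟩
    rw [MvPolynomial.aeval_eq_eval]
    simp only [map_pow]
    exact (isUnit_iff_ne_zero.2 hPt).pow m
  let φ : R →ₐ[K] K := IsLocalization.liftAlgHom (M := Submonoid.powers P)
    (f := (MvPolynomial.aeval t : MvPolynomial (Fin n) K →ₐ[K] K)) hunit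
  have hφ : ∀ q : MvPolynomial (Fin n) K,
      φ (algebraMap (MvPolynomial (Fin n) K) R q) = MvPolynomial.eval t q := by
    intro q
    have h1 : φ (algebraMap (MvPolynomial (Fin n) K) R q) = MvPolynomial.aeval t q :=
      IsLocalization.lift_eq _ q
    rw [h1, MvPolynomial.aeval_eq_eval]
  have hφg : ∀ g : R, φ g * MvPolynomial.eval t P ^ k g = MvPolynomial.eval t (h g) := by
    intro g
    have h1 := congrArg φ (hkh g)
    rwa [map_mul, map_pow, hφ, hφ] at h1
  refine ⟨φ, ?_, fun p hp g hg => ?_⟩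
  · intro h0
    have h1 := hφg f
    rw [h0, zero_mul] at h1
    exact hft h1.symm
  · obtain ⟨-, h2, -, h4⟩ := ht2 p hp
    have hPv : vl p (MvPolynomial.eval t P) = 1 := by
      have hu1 : vl p (MvPolynomial.eval t (U : MvPolynomial (Fin n) K)) ≤ 1 :=
        h4 _ (Finset.mem_union_right _ (by simp))
      have hu2 : vl p (MvPolynomial.eval t
          ((U⁻¹ : (MvPolynomial (Fin n) K)ˣ) : MvPolynomial (Fin n) K)) ≤ 1 :=
        h4 _ (Finset.mem_union_right _ (by simp))
      have hu3 : vl p (MvPolynomial.eval t (U : MvPolynomial (Fin n) K)) *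
          vl p (MvPolynomial.eval t
            ((U⁻¹ : (MvPolynomial (Fin n) K)ˣ) : MvPolynomial (Fin n) K)) = 1 := by
        rw [← map_mul, ← map_mul, Units.mul_inv, map_one, map_one]
      have hu : vl p (MvPolynomial.eval t (U : MvPolynomial (Fin n) K)) = 1 := by
        refine le_antisymm hu1 ?_
        calc (1 : WithZero (Multiplicative ℤ)) = _ := hu3.symm
          _ ≤ vl p (MvPolynomial.eval t (U : MvPolynomial (Fin n) K)) * 1 :=
              mul_le_mul_right hu2 _
          _ = _ := mul_one _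
      rw [← hU, map_mul, map_mul, hu, mul_one]
      have h5 : ∀ s : Multiset (MvPolynomial (Fin n) K),
          (∀ Q ∈ s, vl p (MvPolynomial.eval t Q) = 1) →
          vl p (MvPolynomial.eval t s.prod) = 1 := by
        intro s
        induction s using Multiset.induction_on with
        | empty => intro _; simp
        | cons a s ih =>
          intro hs
          rw [Multiset.prod_cons, map_mul, map_mul, hs a (Multiset.mem_cons_self a s), one_mul]
          exact ih (fun Q hQ => hs Q (Multiset.mem_cons_of_mem hQ))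
      exact h5 _ (fun Q hQ => h2 Q (Multiset.mem_toFinset.2 hQ))
    have h6 : vl p (φ g) * vl p (MvPolynomial.eval t P) ^ k g =
        vl p (MvPolynomial.eval t (h g)) := by
      rw [← map_pow, ← map_mul, hφg g]
    rw [hPv, one_pow, mul_one] at h6
    rw [h6]
    exact h4 _ (Finset.mem_union_left _ (Finset.mem_image_of_mem h hg))

end Pool.Agent.Helper65.BR
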